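import Pool.Agent.H.MP_73edb1_nt.A

set_option autoImplicit false

namespace Pool.Agent.Results.MP_73edb1_nt.Per

open Pool.Agent.H.MP_73edb1_nt in
theorem result (p : ℕ) (hp : p.Prime) (ho : Odd p) :
    Matrix.permanent (Matrix.of fun i l : Fin p =>
      ((i : ℤ) + 1) - ((l : ℤ) + 1) + if i = l then 1 else 0) ≡ 4 * p + 1 [ZMOD (p : ℤ) ^ 2] := by
  obtain ⟨n, rfl⟩ : ∃ n, p = n + 1 := ⟨p - 1, by have := hp.pos; omega⟩
  have := Fact.mk hp
  rw [← Nat.cast_pow, ← ZMod.intCast_eq_intCast_iff, Int.cast_add, Int.cast_mul, Int.cast_natCast,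
    Int.cast_ofNat, Int.cast_one, ← main ho, Matrix.permanent, Int.cast_sum]
  refine Finset.sum_congr rfl fun σ _ => ?_
  rw [Int.cast_prod]
  refine (Finset.prod_subset (Finset.subset_univ σ.support) fun i _ hi => by
    simp [Equiv.Perm.notMem_support.1 hi]).symm.trans (Finset.prod_congr rfl fun i hi => ?_)
  simp only [Matrix.of_apply, if_neg (Equiv.Perm.mem_support.1 hi), add_zero,
    add_sub_add_right_eq_sub, Int.cast_sub, Int.cast_natCast]
  rfl

end Pool.Agent.Results.MP_73edb1_nt.Per
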